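import Pool.Agent.MP_bcd555_gt.Mg.Fence

namespace Pool.Agent.Results.MP_bcd555_gt.NotSelfDual

open CategoryTheory

theorem result :
    ∃ (C : Type) (_ : SmallCategory C),
      SSet.KanComplex (SSet.ex.obj (SSet.ex.obj (nerve C))) ∧
      ¬ SSet.KanComplex (SSet.ex.obj (SSet.ex.obj (nerve Cᵒᵖ))) :=
  ⟨Pool.Agent.MP_bcd555_gt.Fence, inferInstance, Pool.Agent.MP_bcd555_gt.kan_fence,
    Pool.Agent.MP_bcd555_gt.not_kan_fence_op⟩

end Pool.Agent.Results.MP_bcd555_gt.NotSelfDual
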